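import Pool.Agent.L7h96.RC.Stm2
import Pool.Agent.L7h96.RC.Mix

set_option autoImplicit false

/-! Quasi-invariance of the infinite volume law under even local modifications. -/

open Finset MeasureTheory

namespace Pool.Agent.L7h96.RC

variable {d : ℕ}

theorem W_pos {ι : Type} [DecidableEq ι] {t : ι → ℝ} (h0 : ∀ i, 0 < t i) (h1 : ∀ i, t i < 1)
    (I ω p q : Finset ι) : 0 < W t I ω p q := by
  refine prod_pos fun i _ => ?_
  have h2 := h0 i
  have h3 := h1 i
  split_ifs
  · positivity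
  · exact h2
  · nlinarith

/-- comparison of the weights of configurations which agree outside `K` -/
theorem W_le_of_agree {ι : Type} [DecidableEq ι] {b : ℝ} (hb0 : 0 < b) (hb1 : b < 1)
    {K I : Finset ι} (hK : K ⊆ I) {ω p q ω' p' q' : Finset ι}
    (h1 : ∀ i, i ∉ K → (i ∈ ω ↔ i ∈ ω')) (h2 : ∀ i, i ∉ K → (i ∈ p ↔ i ∈ p'))
    (h3 : ∀ i, i ∉ K → (i ∈ q ↔ i ∈ q')) :
    W (fun _ => b) I ω p q ≤ ((b ^ 2 * (1 - b ^ 2))⁻¹) ^ K.card * W (fun _ => b) I ω' p' q' := by
  have hm0 : 0 < b ^ 2 * (1 - b ^ 2) := mul_pos (by positivity) (by nlinarith)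
  have hb2 : 0 < 1 - b ^ 2 := by nlinarith
  have e1 : ((b ^ 2 * (1 - b ^ 2))⁻¹) ^ K.card = ∏ i ∈ I, if i ∈ K then (b ^ 2 * (1 - b ^ 2))⁻¹
      else 1 := by
    rw [prod_ite_mem, inter_eq_right.2 hK, prod_const]
  rw [e1]
  unfold W
  rw [← prod_mul_distrib]
  refine prod_le_prod (fun i _ => ?_) fun i _ => ?_
  · split_ifs
    · positivity
    · exact hb0.le
    · exact hb2.le
  · by_cases hi : i ∈ K
    · have hle : (if i ∈ ω then (if (i ∈ p ↔ i ∈ q) then b ^ 2 else b) else 1 - b ^ 2) ≤ 1 := by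
        split_ifs
        · nlinarith
        · exact hb1.le
        · nlinarith [sq_nonneg b]
      have hge : b ^ 2 * (1 - b ^ 2) ≤
          (if i ∈ ω' then (if (i ∈ p' ↔ i ∈ q') then b ^ 2 else b) else 1 - b ^ 2) := by
        split_ifs
        · nlinarith [sq_nonneg b]
        · nlinarith [sq_nonneg b, mul_pos hb0 hb0]
        · nlinarith [sq_nonneg b]
      rw [if_pos hi]
      calc _ ≤ (1 : ℝ) := hle
        _ = (b ^ 2 * (1 - b ^ 2))⁻¹ * (b ^ 2 * (1 - b ^ 2)) := (inv_mul_cancel₀ hm0.ne').symm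
        _ ≤ _ := mul_le_mul_of_nonneg_left hge (inv_nonneg.2 hm0.le)
    · rw [if_neg hi, one_mul]
      simp only [h1 i hi, h2 i hi, h3 i hi]
      exact le_rfl

/-- the modified open set -/
noncomputable def gO (K₁ K₂ U C α a a' : Finset (Ed d)) : Finset (Ed d) :=
  (α \ (K₁ ∪ K₂ ∪ U ∪ C)) ∪ (K₁ ∪ K₂ ∪ U ∪ C).filter (fun e =>
    (((e ∈ α ∨ e ∈ U) ∧ e ∉ C) ∨ e ∈ symmDiff a K₁) ∨ e ∈ symmDiff a' K₂)

theorem conf_gm (K₁ K₂ U C α a a' : Finset (Ed d)) :
    gm K₁ K₂ U C (conf α a a') =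
      conf (gO K₁ K₂ U C α a a') (symmDiff a K₁) (symmDiff a' K₂) := by
  funext e
  unfold gm conf gO
  by_cases hK : e ∈ K₁ ∪ K₂ ∪ U ∪ C
  · rw [if_pos hK]
    have hx1 : (xor (decide (e ∈ a)) (decide (e ∈ K₁))) = decide (e ∈ symmDiff a K₁) := by
      by_cases h1 : e ∈ a <;> by_cases h2 : e ∈ K₁ <;> simp [mem_symmDiff, h1, h2]
    have hx2 : (xor (decide (e ∈ a')) (decide (e ∈ K₂))) = decide (e ∈ symmDiff a' K₂) := by
      by_cases h1 : e ∈ a' <;> by_cases h2 : e ∈ K₂ <;> simp [mem_symmDiff, h1, h2]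
    simp only [hx1, hx2]
    refine Prod.ext ?_ rfl
    simp only [mem_union, mem_sdiff, mem_filter] at hK ⊢
    by_cases h1 : e ∈ α <;> by_cases h2 : e ∈ U <;> by_cases h3 : e ∈ C <;>
      by_cases h4 : e ∈ symmDiff a K₁ <;> by_cases h5 : e ∈ symmDiff a' K₂ <;>
      simp_all
  · rw [if_neg hK]
    have h0 : e ∉ K₁ ∧ e ∉ K₂ := by
      simp only [mem_union, not_or] at hK
      exact ⟨hK.1.1.1, hK.1.1.2⟩
    have hx1 : e ∈ symmDiff a K₁ ↔ e ∈ a := by
      simp [mem_symmDiff, h0.1]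
    have hx2 : e ∈ symmDiff a' K₂ ↔ e ∈ a' := by
      simp [mem_symmDiff, h0.2]
    refine Prod.ext ?_ (Prod.ext ?_ ?_)
    · simp only [mem_union (s := α \ _), mem_sdiff, mem_filter, hK, not_false_iff, and_true,
        false_and, or_false]
    · simp only [hx1]
    · simp only [hx2]

theorem gm_meas (K₁ K₂ U C : Finset (Ed d)) : Measurable (gm K₁ K₂ U C) := by
  refine measurable_pi_lambda _ fun e => ?_
  have : (fun σ : Om d => gm K₁ K₂ U C σ e) =
      (fun s : Bool × Bool × Bool => if e ∈ K₁ ∪ K₂ ∪ U ∪ C then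
        (((s.1 || decide (e ∈ U)) && !decide (e ∈ C)) || xor s.2.1 (decide (e ∈ K₁)) ||
          xor s.2.2 (decide (e ∈ K₂)),
          xor s.2.1 (decide (e ∈ K₁)), xor s.2.2 (decide (e ∈ K₂)))
        else s) ∘ (fun σ : Om d => σ e) := by
    funext σ
    rfl
  rw [this]
  exact (Measurable.of_discrete).comp (measurable_pi_apply e)

theorem dep_gm (K₁ K₂ U C : Finset (Ed d)) {F : Finset (Ed d)} {A : Set (Om d)} (h : Dep F A) :
    Dep F (gm K₁ K₂ U C ⁻¹' A) := by
  intro x y hxy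
  refine h _ _ fun e he => ?_
  unfold gm
  rw [hxy e he]

/-- the index set of the triple sums -/
def ix (F : Finset (Ed d)) : Finset (Finset (Ed d) × Finset (Ed d) × Finset (Ed d)) :=
  (F.powerset ×ˢ (F.powerset ×ˢ F.powerset)).filter (fun x => x.2.1 ⊆ x.1 ∧ x.2.2 ⊆ x.1)

theorem mem_ix {F : Finset (Ed d)} {x : Finset (Ed d) × Finset (Ed d) × Finset (Ed d)} :
    x ∈ ix F ↔ x.1 ⊆ F ∧ x.2.1 ⊆ x.1 ∧ x.2.2 ⊆ x.1 := by
  unfold ix
  simp only [mem_filter, mem_product, mem_powerset]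
  constructor
  · rintro ⟨⟨h1, _⟩, h2, h3⟩
    exact ⟨h1, h2, h3⟩
  · rintro ⟨h1, h2, h3⟩
    exact ⟨⟨h1, h2.trans h1, h3.trans h1⟩, h2, h3⟩

theorem S3_ix (F : Finset (Ed d)) (f : Finset (Ed d) → Finset (Ed d) → Finset (Ed d) → ℝ) :
    S3 F f = ∑ x ∈ ix F, f x.1 x.2.1 x.2.2 := by
  rw [S3_sigma]
  refine sum_bij' (fun x _ => (x.1, x.2.1, x.2.2)) (fun x _ => ⟨x.1, x.2.1, x.2.2⟩) ?_ ?_ ?_ ?_ ?_
  · intro x hx
    simp only [mem_sigma, mem_product, mem_powerset] at hx
    rw [mem_ix]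
    exact hx
  · intro x hx
    rw [mem_ix] at hx
    simp only [mem_sigma, mem_product, mem_powerset]
    exact hx
  · intro x _; rfl
  · intro x _; rfl
  · intro x _; rfl

theorem IsLim.iv_nonneg {b : ℝ} (hb0 : 0 < b) (hb1 : b < 1) {P : Measure (Om d)} (h : IsLim b P)
    {F α a a' : Finset (Ed d)} (hα : α ⊆ F) (ha : a ⊆ α) (ha' : a' ⊆ α) :
    0 ≤ iv DB (fun _ => b) F (cp b) (0 + bd DB a) * iv DB (fun _ => b) F (c0 b) (bd DB a') := by
  classical
  set S : Set (Om d) := {σ | ∀ e ∈ F, σ e = conf α a a' e} with hS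
  have hdep : Dep F S := by
    intro x y hxy
    simp only [hS, Set.mem_ofPred_eq]
    exact forall₂_congr fun e he => by rw [hxy e he]
  have h1 := h.loc F S hdep
  have h2 : Loc DB (fun _ => b) F (cp b) (c0 b) 0 (ind S) = W (fun _ => b) F α a a' *
      (iv DB (fun _ => b) F (cp b) (0 + bd DB a) * iv DB (fun _ => b) F (c0 b) (bd DB a')) := by
    unfold Loc
    rw [S3_ix, sum_eq_single (α, a, a')]
    · have : ind S α a a' = 1 := by
        unfold ind
        rw [if_pos]
        intro e _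
        rfl
      show W (fun _ => b) F α a a' * ind S α a a' * _ = _
      rw [this, mul_one]
    · rintro ⟨ω, p, q⟩ hx hne
      rw [mem_ix] at hx
      have : ind S ω p q = 0 := by
        unfold ind
        rw [if_neg]
        intro hmem
        apply hne
        have hc : ∀ e ∈ F, (e ∈ ω ↔ e ∈ α) ∧ (e ∈ p ↔ e ∈ a) ∧ (e ∈ q ↔ e ∈ a') := by
          intro e he
          have := hmem e he
          unfold conf at this
          simp only [Prod.mk.injEq, decide_eq_decide] at this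
          exact this
        have hsub : ∀ {u v : Finset (Ed d)}, u ⊆ F → v ⊆ F → (∀ e ∈ F, (e ∈ u ↔ e ∈ v)) →
            u = v := by
          intro u v hu hv huv
          ext e
          constructor
          · intro he; exact (huv e (hu he)).1 he
          · intro he; exact (huv e (hv he)).2 he
        refine Prod.ext (hsub hx.1 hα fun e he => (hc e he).1) (Prod.ext ?_ ?_)
        · exact hsub (hx.2.1.trans hx.1) (ha.trans hα) fun e he => (hc e he).2.1
        · exact hsub (hx.2.2.trans hx.1) (ha'.trans hα) fun e he => (hc e he).2.2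
      show W (fun _ => b) F ω p q * ind S ω p q * _ = _
      rw [this]
      ring
    · intro hx
      exact absurd (mem_ix.2 ⟨hα, ha, ha'⟩) hx
  have h3 : 0 ≤ P.real S := measureReal_nonneg
  rw [h1, h2] at h3
  exact nonneg_of_mul_nonneg_right h3 (W_pos (fun _ => hb0) (fun _ => hb1) F α a a')

theorem qi : S_QI := by
  classical
  intro d b hb0 hb1 P h K₁ K₂ U C hK₁ hK₂
  have := h.prob
  set K := K₁ ∪ K₂ ∪ U ∪ C with hK
  have hm0 : 0 < b ^ 2 * (1 - b ^ 2) := mul_pos (by positivity) (by nlinarith)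
  set m := ((b ^ 2 * (1 - b ^ 2))⁻¹) ^ K.card with hm
  have hm1 : 0 ≤ m := by positivity
  set N : ℕ := (K.powerset ×ˢ (K.powerset ×ˢ K.powerset)).card with hN
  refine ⟨m * N, fun A hA => ?_⟩
  have hc0 : 0 ≤ m * N := by positivity
  set ν : Measure (Om d) := ENNReal.ofReal (m * N) • P with hν
  have hνr : ∀ S : Set (Om d), ν.real S = (m * N) * P.real S := by
    intro S
    rw [hν, measureReal_ennreal_smul_apply, ENNReal.toReal_ofReal hc0]
  have hνf : IsFiniteMeasure ν := by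
    constructor
    rw [hν, Measure.smul_apply, smul_eq_mul]
    exact ENNReal.mul_lt_top ENNReal.ofReal_lt_top (measure_lt_top _ _)
  have hmapf : IsFiniteMeasure (P.map (gm K₁ K₂ U C)) := Measure.isFiniteMeasure_map _ _
  have hmapr : ∀ S : Set (Om d), MeasurableSet S →
      (P.map (gm K₁ K₂ U C)).real S = P.real (gm K₁ K₂ U C ⁻¹' S) := by
    intro S hS
    rw [measureReal_def, measureReal_def, Measure.map_apply (gm_meas K₁ K₂ U C) hS]
  rw [← hνr, ← hmapr A hA]
  refine le_of_dep _ _ (fun F₀ B hB₀ => ?_) hA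
  rw [hνr, hmapr B hB₀.meas]
  -- enlarge the window
  set F := F₀ ∪ K with hF
  have hB : Dep F B := hB₀.mono subset_union_left
  have hKF : K ⊆ F := subset_union_right
  rw [h.loc F _ (dep_gm K₁ K₂ U C hB), h.loc F _ hB]
  set g : Finset (Ed d) × Finset (Ed d) × Finset (Ed d) → ℝ := fun x =>
    W (fun _ => b) F x.1 x.2.1 x.2.2 * ind B x.1 x.2.1 x.2.2 *
      (iv DB (fun _ => b) F (cp b) (0 + bd DB x.2.1) *
        iv DB (fun _ => b) F (c0 b) (bd DB x.2.2)) with hg
  set T : Finset (Ed d) × Finset (Ed d) × Finset (Ed d) →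
    Finset (Ed d) × Finset (Ed d) × Finset (Ed d) := fun x =>
      (gO K₁ K₂ U C x.1 x.2.1 x.2.2, symmDiff x.2.1 K₁, symmDiff x.2.2 K₂) with hT
  have hg0 : ∀ x ∈ ix F, 0 ≤ g x := by
    intro x hx
    rw [mem_ix] at hx
    exact mul_nonneg (mul_nonneg (W_pos (fun _ => hb0) (fun _ => hb1) _ _ _ _).le
      (ind_nonneg _ _ _ _)) (h.iv_nonneg hb0 hb1 hx.1 hx.2.1 hx.2.2)
  have hK₁K : K₁ ⊆ K := by
    rw [hK]; intro e he; simp [he]
  have hK₂K : K₂ ⊆ K := by
    rw [hK]; intro e he; simp [he]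
  have hout : ∀ x : Finset (Ed d) × Finset (Ed d) × Finset (Ed d), ∀ e, e ∉ K →
      (e ∈ x.1 ↔ e ∈ (T x).1) ∧ (e ∈ x.2.1 ↔ e ∈ (T x).2.1) ∧ (e ∈ x.2.2 ↔ e ∈ (T x).2.2) := by
    intro x e he
    have h1 : e ∉ K₁ := fun h' => he (hK₁K h')
    have h2 : e ∉ K₂ := fun h' => he (hK₂K h')
    refine ⟨?_, ?_, ?_⟩
    · simp only [hT, gO]
      rw [← hK]
      simp only [mem_union (s := x.1 \ _), mem_sdiff, mem_filter, he, not_false_iff, and_true,
        false_and, or_false]
    · simp only [hT, mem_symmDiff, h1, not_false_iff, and_true, false_and, or_false]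
    · simp only [hT, mem_symmDiff, h2, not_false_iff, and_true, false_and, or_false]
  have hTix : ∀ x ∈ ix F, T x ∈ ix F := by
    intro x hx
    rw [mem_ix] at hx ⊢
    have hsub : ∀ (u : Finset (Ed d)), (∀ e ∈ K, e ∈ u → e ∈ (T x).1) →
        (∀ e, e ∉ K → (e ∈ u → e ∈ x.1)) → u ⊆ (T x).1 := by
      intro u h1 h2 e he
      by_cases heK : e ∈ K
      · exact h1 e heK he
      · exact ((hout x e heK).1).1 (h2 e heK he)
    refine ⟨?_, ?_, ?_⟩
    · intro e he
      by_cases heK : e ∈ K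
      · exact hKF heK
      · exact hx.1 (((hout x e heK).1).2 he)
    · refine hsub _ (fun e heK he => ?_) (fun e heK he => ?_)
      · simp only [hT, gO]
        rw [← hK]
        refine mem_union_right _ (mem_filter.2 ⟨heK, Or.inl (Or.inr he)⟩)
      · exact hx.2.1 (((hout x e heK).2.1).2 he)
    · refine hsub _ (fun e heK he => ?_) (fun e heK he => ?_)
      · simp only [hT, gO]
        rw [← hK]
        refine mem_union_right _ (mem_filter.2 ⟨heK, Or.inr he⟩)
      · exact hx.2.2 (((hout x e heK).2.2).2 he)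
  have key : Loc DB (fun _ => b) F (cp b) (c0 b) 0 (ind (gm K₁ K₂ U C ⁻¹' B)) ≤
      ∑ x ∈ ix F, m * g (T x) := by
    unfold Loc
    rw [S3_ix]
    refine sum_le_sum fun x hx => ?_
    have hTx := hTix x hx
    have e1 : ind (gm K₁ K₂ U C ⁻¹' B) x.1 x.2.1 x.2.2 = ind B (T x).1 (T x).2.1 (T x).2.2 := by
      unfold ind
      have : conf x.1 x.2.1 x.2.2 ∈ gm K₁ K₂ U C ⁻¹' B ↔
          conf (T x).1 (T x).2.1 (T x).2.2 ∈ B := by
        rw [Set.mem_preimage, conf_gm]
      simp only [this]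
    have e2 : bd DB (T x).2.1 = bd DB x.2.1 := by
      simp only [hT]
      rw [bd_symmDiff, hK₁, add_zero]
    have e3 : bd DB (T x).2.2 = bd DB x.2.2 := by
      simp only [hT]
      rw [bd_symmDiff, hK₂, add_zero]
    rw [mem_ix] at hTx
    have hiv := h.iv_nonneg hb0 hb1 hTx.1 hTx.2.1 hTx.2.2
    rw [e2, e3] at hiv
    have hW := W_le_of_agree (K := K) (I := F) hb0 hb1 hKF
      (fun e he => (hout x e he).1) (fun e he => (hout x e he).2.1)
      (fun e he => (hout x e he).2.2)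
    rw [e1]
    simp only [hg]
    rw [e2, e3]
    have := mul_le_mul_of_nonneg_right (mul_le_mul_of_nonneg_right hW
      (ind_nonneg B (T x).1 (T x).2.1 (T x).2.2)) hiv
    refine this.trans (le_of_eq ?_)
    ring
  refine key.trans ?_
  rw [← mul_sum]
  have h4 : ∑ x ∈ ix F, g (T x) ≤ N * ∑ x ∈ ix F, g x := by
    rw [← sum_fiberwise_of_maps_to hTix, mul_sum]
    refine sum_le_sum fun y hy => ?_
    have h5 : ∑ x ∈ ix F with T x = y, g (T x) = ((ix F).filter (fun x => T x = y)).card * g y := by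
      rw [← nsmul_eq_mul, ← sum_const]
      refine sum_congr rfl fun x hx => ?_
      rw [(mem_filter.1 hx).2]
    rw [h5]
    refine mul_le_mul_of_nonneg_right ?_ (hg0 y hy)
    have h6 : ((ix F).filter (fun x => T x = y)).card ≤ N := by
      rw [hN]
      refine card_le_card_of_injOn (fun x => (x.1 ∩ K, x.2.1 ∩ K, x.2.2 ∩ K)) ?_ ?_
      · intro x _
        simp only [coe_product, Set.mem_prod, mem_coe, mem_powerset]
        exact ⟨inter_subset_right, inter_subset_right, inter_subset_right⟩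
      · intro x hx x' hx' hxx
        have hx2 := (mem_filter.1 (mem_coe.1 hx)).2
        have hx2' := (mem_filter.1 (mem_coe.1 hx')).2
        simp only [Prod.mk.injEq] at hxx
        have hTT : T x = T x' := hx2.trans hx2'.symm
        have hsub : ∀ {u v : Finset (Ed d)}, u ∩ K = v ∩ K → (∀ e, e ∉ K → (e ∈ u ↔ e ∈ v)) →
            u = v := by
          intro u v huv h'
          ext e
          by_cases he : e ∈ K
          · constructor
            · intro h1
              have : e ∈ u ∩ K := mem_inter.2 ⟨h1, he⟩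
              rw [huv] at this
              exact (mem_inter.1 this).1
            · intro h1
              have : e ∈ v ∩ K := mem_inter.2 ⟨h1, he⟩
              rw [← huv] at this
              exact (mem_inter.1 this).1
          · exact h' e he
        refine Prod.ext (hsub hxx.1 fun e he => ?_) (Prod.ext (hsub hxx.2.1 fun e he => ?_)
          (hsub hxx.2.2 fun e he => ?_))
        · rw [(hout x e he).1, (hout x' e he).1, hTT]
        · rw [(hout x e he).2.1, (hout x' e he).2.1, hTT]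
        · rw [(hout x e he).2.2, (hout x' e he).2.2, hTT]
    exact_mod_cast h6
  calc m * ∑ x ∈ ix F, g (T x) ≤ m * (N * ∑ x ∈ ix F, g x) :=
        mul_le_mul_of_nonneg_left h4 hm1
    _ = m * N * Loc DB (fun _ => b) F (cp b) (c0 b) 0 (ind B) := by
        unfold Loc
        rw [S3_ix]
        ring

end Pool.Agent.L7h96.RC
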