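import Pool.Agent.L7h96.RC.Stm2

set_option autoImplicit false

/-! Translation invariance of the infinite volume law. -/

open Finset MeasureTheory

namespace Pool.Agent.L7h96.RC

variable {d : ℕ}

/-- measures are determined by the local events -/
theorem ext_dep {E S : Type} [Countable E] [Fintype S] [MeasurableSpace S]
    [DiscreteMeasurableSpace S] (μ ν : Measure (E → S)) [IsFiniteMeasure μ] [IsFiniteMeasure ν]
    (h : ∀ (F : Finset E) (A : Set (E → S)), Dep F A → μ.real A = ν.real A) : μ = ν := by
  ext s hs
  have h1 : μ.real s = ν.real s := le_antisymm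
    (le_of_dep μ ν (fun F A hA => (h F A hA).le) hs)
    (le_of_dep ν μ (fun F A hA => (h F A hA).ge) hs)
  rw [measureReal_def, measureReal_def, ENNReal.toReal_eq_toReal_iff' (measure_ne_top _ _)
    (measure_ne_top _ _)] at h1
  exact h1

theorem ind_shift (v : V d) (A : Set (Om d)) (ω p q : Finset (Ed d)) :
    ind (th v ⁻¹' A) (ω.map (shEq v).toEmbedding) (p.map (shEq v).toEmbedding)
      (q.map (shEq v).toEmbedding) = ind A ω p q := by
  classical
  unfold ind
  have h : th v (conf (ω.map (shEq v).toEmbedding) (p.map (shEq v).toEmbedding)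
      (q.map (shEq v).toEmbedding)) = conf ω p q := by
    funext e
    unfold th conf
    have hm : ∀ s : Finset (Ed d), shE v e ∈ s.map (shEq v).toEmbedding ↔ e ∈ s := by
      intro s
      exact Finset.mem_map' (shEq v).toEmbedding
    simp only [hm]
  rw [Set.mem_preimage, h]

theorem IsLim.ti {b : ℝ} (hb0 : 0 ≤ b) (hb1 : b ≤ 1) {P : Measure (Om d)} (h : IsLim b P) :
    TI P := by
  intro v
  have := h.prob
  have hmap : IsProbabilityMeasure (P.map (th v)) :=
    Measure.isProbabilityMeasure_map (th_meas v).aemeasurable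
  apply ext_dep
  intro F A hA
  have h1 : (P.map (th v)).real A = P.real (th v ⁻¹' A) := by
    rw [measureReal_def, measureReal_def, Measure.map_apply (th_meas v) hA.meas]
  rw [h1, h.loc _ _ (dep_th hA v), h.loc _ _ hA]
  have h2 := Loc_map (D := DB) (t := fun _ => b) (D' := DB) (t' := fun _ => b)
    (shEq v).toEmbedding (shX v) (fun i => (shX_DB v i).symm) (fun _ => rfl)
    (u1 := cp b) (u2 := c0 b) (fun C => cp_shift hb0 hb1 v C) (fun C => c0_shift hb0 hb1 v C) F 0
    (ind (th v ⁻¹' A))
  rw [map_zero] at h2
  rw [h2]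
  simp only [ind_shift]

end Pool.Agent.L7h96.RC
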