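import Pool.Agent.L7h96.RC.Stm2
import Pool.Agent.L7h96.RC.Mix
import Pool.Agent.L7h70.RC.Ti

set_option autoImplicit false
set_option linter.unusedSectionVars false

/-! Zero-one law for the single current. -/

open Finset MeasureTheory Filter Topology

namespace Pool.Agent.L7h96.RC

section gen

variable {ι X : Type} [DecidableEq ι] [AddCommGroup X] [DecidableEq X]

theorem iv_insert (D : ι → X) (t : ι → ℝ) {F : Finset ι} {i : ι} (hi : i ∉ F) (u : X → ℝ)
    (A : X) : iv D t (insert i F) u A =
      (1 - t i ^ 2)⁻¹ * (iv D t F u A - t i * iv D t F u (A + D i)) := by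
  unfold iv
  rw [prod_insert hi, sum_powerset_insert hi, mul_inv]
  have : ∑ K ∈ F.powerset, (-1) ^ (insert i K).card * tw t (insert i K) *
      u (A + bd D (insert i K)) =
      - t i * ∑ K ∈ F.powerset, (-1) ^ K.card * tw t K * u (A + D i + bd D K) := by
    rw [mul_sum]
    refine sum_congr rfl fun K hK => ?_
    have hiK : i ∉ K := fun h => hi (mem_powerset.1 hK h)
    rw [card_insert_of_notMem hiK, tw_insert t hiK, bd_insert D hiK, pow_succ, ← add_assoc]
    ring
  rw [this]
  ring

theorem iv_sum [E2 X] (D : ι → X) (t : ι → ℝ) (F : Finset ι) (ht : ∀ i, 1 - t i ^ 2 ≠ 0)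
    (u : X → ℝ) (A : X) :
    ∑ a ∈ F.powerset, tw t a * iv D t F u (A + bd D a) = u A := by
  induction F using Finset.induction_on generalizing A with
  | empty => simp [iv]
  | @insert i F hi ih =>
    rw [sum_powerset_insert hi, ← sum_add_distrib, ← ih A]
    refine sum_congr rfl fun a ha => ?_
    have hia : i ∉ a := fun h => hi (mem_powerset.1 ha h)
    rw [tw_insert t hia, bd_insert D hia, iv_insert D t hi, iv_insert D t hi]
    have e1 : A + (D i + bd D a) + D i = A + bd D a := by
      have : A + (D i + bd D a) + D i = A + bd D a + (D i + D i) := by abel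
      rw [this, add_self', add_zero]
    have e2 : A + (D i + bd D a) = A + bd D a + D i := by abel
    rw [e1, e2]
    have := ht i
    field_simp
    ring

theorem tw_union (t : ι → ℝ) {p q : Finset ι} (h : Disjoint p q) :
    tw t (p ∪ q) = tw t p * tw t q := by
  unfold tw
  rw [prod_union h]

theorem iv_union (D : ι → X) (t : ι → ℝ) {F G : Finset ι} (h : Disjoint F G) (u : X → ℝ)
    (A : X) : iv D t (F ∪ G) u A =
      ((∏ i ∈ F, (1 - t i ^ 2))⁻¹ * (∏ i ∈ G, (1 - t i ^ 2))⁻¹) * ∑ K ∈ F.powerset,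
        ∑ K' ∈ G.powerset, ((-1) ^ K.card * tw t K) * ((-1) ^ K'.card * tw t K') *
          u (A + (bd D K + bd D K')) := by
  unfold iv
  rw [prod_union h, sum_powerset_union h, mul_inv]
  congr 1
  refine sum_congr rfl fun K hK => sum_congr rfl fun K' hK' => ?_
  have hd : Disjoint K K' :=
    (h.mono_left (mem_powerset.1 hK)).mono_right (mem_powerset.1 hK')
  rw [card_union_of_disjoint hd, tw_union t hd, bd_union D hd, pow_add]
  ring

end gen

variable {d : ℕ}

theorem c0_zero {b : ℝ} (hb0 : 0 ≤ b) (hb1 : b ≤ 1) : c0 b (0 : X d) = 1 :=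
  tendsto_nhds_unique (c2_tendsto hb0 hb1 0)
    ((tendsto_const_nhds).congr fun n => (corr_zero (fun _ => hb0) _).symm)

/-- indicator function of a set of edges -/
def chi (a : Finset (Ed d)) : Ed d → Bool := fun e => decide (e ∈ a)

open scoped Classical in
/-- indicator of an event for `p` -/
noncomputable def iA (A : Set (Ed d → Bool)) (a : Finset (Ed d)) : ℝ := if chi a ∈ A then 1 else 0

theorem pr_meas : Measurable (pr : Om d → (Ed d → Bool)) := by
  refine measurable_pi_lambda _ fun e => ?_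
  exact (Measurable.of_discrete (f := fun s : Bool × Bool × Bool => s.2.1)).comp
    (measurable_pi_apply e)

/-- the law of `p` -/
theorem IsLim.marg {b : ℝ} (hb0 : 0 < b) (hb1 : b < 1) {P : Measure (Om d)} (h : IsLim b P)
    {F : Finset (Ed d)} {A : Set (Ed d → Bool)} (hA : Dep F A) :
    P.real (pr ⁻¹' A) = ∑ a ∈ F.powerset,
      tw (fun _ => b) a * (iA A a * iv DB (fun _ => b) F (cp b) (bd DB a)) := by
  classical
  have hdep : Dep F (pr ⁻¹' A) := by
    intro x y hxy
    refine hA _ _ fun e he => ?_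
    show (x e).2.1 = (y e).2.1
    rw [hxy e he]
  rw [h.loc F _ hdep]
  unfold Loc
  have h1 := S3_total (fun _ : Ed d => b) F
    (fun a => iA A a * iv DB (fun _ => b) F (cp b) (bd DB a))
    (fun a' => iv DB (fun _ => b) F (c0 b) (bd DB a'))
  have h2 := iv_sum (X := X d) DB (fun _ => b) F (fun _ => by nlinarith) (c0 b) 0
  rw [c0_zero hb0.le hb1.le] at h2
  simp only [zero_add] at h2
  rw [h2, mul_one] at h1
  rw [← h1]
  refine S3_congr fun α a a' _ _ _ => ?_
  have h3 : ind (pr ⁻¹' A) α a a' = iA A a := rfl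
  rw [h3, zero_add]
  ring

/-- mixing, uniformly over a finite set of pairs -/
theorem fin_mix {b : ℝ} (hb0 : 0 ≤ b) (hb1 : b ≤ 1) (s : Finset (X d × X d)) {δ : ℝ}
    (hδ : 0 < δ) :
    ∃ L : ℕ, ∀ v : V d, (∃ j, (L : ℤ) ≤ |v j|) → ∀ x ∈ s,
      |cp b (x.1 + shX v x.2) - cp b x.1 * cp b x.2| ≤ δ := by
  classical
  have h1 : ∀ x : X d × X d, ∃ L : ℕ, ∀ u0 u1 : V d, (∃ j, (L:ℤ) ≤ |u0 j - u1 j|) →
      cp b (shX u0 x.1 + shX u1 x.2) ≤ cp b x.1 * cp b x.2 + δ := fun x =>
    mix2 mix hb0 hb1 x.1 x.2 hδ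
  choose L hL using h1
  refine ⟨s.sup L, fun v hv x hx => ?_⟩
  obtain ⟨j, hj⟩ := hv
  have h2 := hL x 0 v ⟨j, by
    have : (L x : ℤ) ≤ (s.sup L : ℕ) := by exact_mod_cast le_sup (f := L) hx
    simp only [Pi.zero_apply, zero_sub, abs_neg]
    exact this.trans hj⟩
  rw [shX_zero] at h2
  have h3 := cp_gks hb0 hb1 x.1 (shX v x.2)
  rw [cp_shift hb0 hb1] at h3
  rw [abs_le]
  constructor <;> linarith

theorem bd_map_sh (v : V d) (K : Finset (Ed d)) :
    bd DB (K.map (shEq v).toEmbedding) = shX v (bd DB K) := by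
  unfold bd
  rw [sum_map, map_sum]
  exact sum_congr rfl fun i _ => (shX_DB v i).symm

theorem tw_map_sh (b : ℝ) (v : V d) (K : Finset (Ed d)) :
    tw (fun _ => b) (K.map (shEq v).toEmbedding) = tw (fun _ => b) K := by
  unfold tw
  rw [prod_map]

theorem zo : S_ZO := by
  classical
  intro d j0 b hb0 hb1 P h D hD hinv hpos
  have := h.prob
  have hTI := h.ti hb0.le hb1.le
  set Q : Measure (Ed d → Bool) := P.map pr with hQ
  have hQp : IsProbabilityMeasure Q := Measure.isProbabilityMeasure_map pr_meas.aemeasurable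
  have hQr : ∀ {A : Set (Ed d → Bool)}, MeasurableSet A → Q.real A = P.real (pr ⁻¹' A) := by
    intro A hA
    rw [hQ, measureReal_def, measureReal_def, Measure.map_apply pr_meas hA]
  have hQT : TI Q := by
    intro v
    rw [hQ, Measure.map_map (th_meas v) pr_meas]
    conv_rhs => rw [← hTI v, Measure.map_map pr_meas (th_meas v)]
    rfl
  rw [← hQr hD] at hpos ⊢
  refine zero_one hQT ?_ hD hinv hpos
  intro F A hA ε hε
  -- coefficients
  set J := F.powerset ×ˢ F.powerset with hJ
  set t : Ed d → ℝ := fun _ => b with ht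
  set Pr := (∏ i ∈ F, (1 - t i ^ 2))⁻¹ with hPr
  set c : Finset (Ed d) × Finset (Ed d) → ℝ := fun x =>
    tw t x.1 * iA A x.1 * Pr * ((-1) ^ x.2.card * tw t x.2) with hc
  set val : Finset (Ed d) × Finset (Ed d) → X d := fun x => bd DB x.1 + bd DB x.2 with hval
  have hQA : Q.real A = ∑ x ∈ J, c x * cp b (val x) := by
    rw [hQr hA.meas, h.marg hb0 hb1 hA, hJ, sum_product]
    refine sum_congr rfl fun a _ => ?_
    unfold iv
    rw [← mul_assoc, ← mul_assoc, mul_sum]
    refine sum_congr rfl fun K _ => ?_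
    simp only [hc, hval, hPr, ht]
    ring
  set M := ∑ x ∈ J, ∑ y ∈ J, |c x * c y| with hM
  have hM0 : 0 ≤ M := sum_nonneg fun x _ => sum_nonneg fun y _ => abs_nonneg _
  obtain ⟨L, hL⟩ := fin_mix hb0.le hb1.le ((J ×ˢ J).image (fun x => (val x.1, val x.2)))
    (show 0 < ε / (M + 1) by positivity)
  obtain ⟨v, hv, hvL⟩ := exists_far j0 F F L
  refine ⟨v, ?_⟩
  set F' := F.map (shEq v).toEmbedding with hF'
  have hdisj : Disjoint F F' := by
    rw [disjoint_right]
    intro e he
    rw [hF', Finset.mem_map] at he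
    obtain ⟨e', he', rfl⟩ := he
    exact hv e' he'
  have hdep : Dep (F ∪ F') (A ∩ th v ⁻¹' A) := hA.inter (dep_th hA v)
  have hQAA : Q.real (A ∩ th v ⁻¹' A) =
      ∑ x ∈ J, ∑ y ∈ J, c x * c y * cp b (val x + shX v (val y)) := by
    rw [hQr hdep.meas, h.marg hb0 hb1 hdep, sum_powerset_union hdisj, hJ, sum_product]
    refine sum_congr rfl fun a ha => ?_
    have haF := mem_powerset.1 ha
    have e1 : ∑ x ∈ F.powerset, ∑ y ∈ F.powerset ×ˢ F.powerset,
        c (a, x) * c y * cp b (val (a, x) + shX v (val y)) =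
        ∑ a' ∈ F.powerset, ∑ K ∈ F.powerset, ∑ K' ∈ F.powerset,
          c (a, K) * c (a', K') * cp b (val (a, K) + shX v (val (a', K'))) := by
      rw [sum_comm, sum_product]
      refine sum_congr rfl fun a' _ => ?_
      rw [sum_comm]
    rw [e1, hF', sum_powerset_map]
    refine sum_congr rfl fun a' ha' => ?_
    have haF' := mem_powerset.1 ha'
    have hda : Disjoint a (a'.map (shEq v).toEmbedding) := by
      refine (hdisj.mono_left haF).mono_right ?_
      rw [hF']
      exact map_subset_map.2 haF'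
    have hi : iA (A ∩ th v ⁻¹' A) (a ∪ a'.map (shEq v).toEmbedding) = iA A a * iA A a' := by
      have h1 : chi (a ∪ a'.map (shEq v).toEmbedding) ∈ A ↔ chi a ∈ A := by
        refine hA _ _ fun e he => ?_
        unfold chi
        rw [decide_eq_decide, mem_union]
        constructor
        · rintro (h1 | h1)
          · exact h1
          · exact absurd (hF' ▸ map_subset_map.2 haF' h1) (disjoint_left.1 hdisj he)
        · intro h1; exact Or.inl h1
      have h2 : chi (a ∪ a'.map (shEq v).toEmbedding) ∈ th v ⁻¹' A ↔ chi a' ∈ A := by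
        rw [Set.mem_preimage]
        refine hA _ _ fun e he => ?_
        unfold chi th
        rw [decide_eq_decide, mem_union]
        have h3 : shE v e ∈ a'.map (shEq v).toEmbedding ↔ e ∈ a' :=
          Finset.mem_map' (shEq v).toEmbedding
        rw [h3]
        constructor
        · rintro (h1 | h1)
          · exact absurd (haF h1) (hv e he)
          · exact h1
        · intro h1; exact Or.inr h1
      unfold iA
      by_cases h3 : chi a ∈ A <;> by_cases h4 : chi a' ∈ A <;>
        simp only [Set.mem_inter_iff, h1, h2, h3, h4, and_true, and_false, if_true, if_false,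
          mul_one, mul_zero, and_self]
    rw [hi, tw_union _ hda, tw_map_sh, bd_union DB hda, bd_map_sh,
      iv_union DB _ (by rw [← hF']; exact hdisj), prod_map, mul_sum, mul_sum, mul_sum]
    refine sum_congr rfl fun K hK => ?_
    rw [sum_powerset_map, mul_sum, mul_sum, mul_sum]
    refine sum_congr rfl fun K' hK' => ?_
    rw [card_map, tw_map_sh, bd_map_sh]
    have e2 : bd DB a + shX v (bd DB a') + (bd DB K + shX v (bd DB K')) =
        val (a, K) + shX v (val (a', K')) := by
      simp only [hval, map_add]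
      abel
    rw [e2]
    simp only [hc, hPr, ht]
    ring
  rw [hQAA, hQA, sum_mul_sum]
  have hfin : ∑ x ∈ J, ∑ y ∈ J, c x * c y * cp b (val x + shX v (val y)) -
      ∑ x ∈ J, ∑ y ∈ J, c x * cp b (val x) * (c y * cp b (val y)) ≤ M * (ε / (M + 1)) := by
    rw [← sum_sub_distrib, hM, sum_mul]
    refine sum_le_sum fun x hx => ?_
    rw [← sum_sub_distrib, sum_mul]
    refine sum_le_sum fun y hy => ?_
    have h1 := hL v ⟨j0, hvL.trans (le_abs_self _)⟩ (val x, val y)
      (mem_image.2 ⟨(x, y), mem_product.2 ⟨hx, hy⟩, rfl⟩)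
    calc c x * c y * cp b (val x + shX v (val y)) - c x * cp b (val x) * (c y * cp b (val y)) =
          (c x * c y) * (cp b (val x + shX v (val y)) - cp b (val x) * cp b (val y)) := by ring
      _ ≤ |(c x * c y) * (cp b (val x + shX v (val y)) - cp b (val x) * cp b (val y))| :=
          le_abs_self _
      _ = |c x * c y| * |cp b (val x + shX v (val y)) - cp b (val x) * cp b (val y)| :=
          abs_mul _ _
      _ ≤ |c x * c y| * (ε / (M + 1)) := mul_le_mul_of_nonneg_left h1 (abs_nonneg _)
  have h5 : M * (ε / (M + 1)) ≤ ε := by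
    rw [mul_div_assoc', div_le_iff₀ (by positivity)]
    nlinarith
  linarith

end Pool.Agent.L7h96.RC
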