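import Pool.Agent.L7h96.RC.Stm2
import Pool.Agent.L7h96.RC.Mix
import Pool.Agent.L7h70.RC.QI
import Pool.Agent.L7h70.RC.ZO

set_option autoImplicit false
set_option linter.unusedVariables false

/-! Decoupling of a far away source from two far away windows. -/

open Finset MeasureTheory Filter Topology

namespace Pool.Agent.L7h96.RC

/-- decoupling of a far away source from two far away windows -/
def S_MX2 : Prop :=
  ∀ (d : ℕ) (b : ℝ), 0 < b → b < 1 → ∀ (e₀ : Ed d) (R : ℕ) (δ : ℝ), 0 < δ →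
    ∃ L : ℕ, ∀ u₀ u₁ u₂ : V d, Far L u₀ u₁ → Far L u₀ u₂ → Far L u₁ u₂ →
      ∀ S : Set (Om d), Dep (wedg u₁ R ∪ wedg u₂ R) S →
        cp b (DB (shE u₀ e₀)) *
            Loc DB (fun _ => b) (wedg u₁ R ∪ wedg u₂ R) (cp b) (c0 b) 0 (ind S) - δ ≤
          Loc DB (fun _ => b) (wedg u₁ R ∪ wedg u₂ R) (cp b) (c0 b) (DB (shE u₀ e₀)) (ind S)

variable {d : ℕ}

theorem tw_le_one {b : ℝ} (hb0 : 0 ≤ b) (hb1 : b ≤ 1) (K : Finset (Ed d)) :
    tw (fun _ => b) K ≤ 1 := by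
  unfold tw
  exact prod_le_one (fun _ _ => hb0) (fun _ _ => hb1)

theorem iv_abs_le {b : ℝ} (hb0 : 0 < b) (hb1 : b < 1) (F : Finset (Ed d)) (u : X d → ℝ)
    (A : X d) {η : ℝ} (hη : 0 ≤ η) (h : ∀ K, K ⊆ F → |u (A + bd DB K)| ≤ η) :
    |iv DB (fun _ => b) F u A| ≤ ((1 - b ^ 2)⁻¹ * 2) ^ F.card * η := by
  have hb2 : 0 < 1 - b ^ 2 := by nlinarith
  unfold iv
  rw [prod_const, abs_mul, abs_of_pos (by positivity : (0:ℝ) < ((1 - b ^ 2) ^ F.card)⁻¹), mul_pow,
    mul_assoc, inv_pow]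
  refine mul_le_mul_of_nonneg_left ?_ (by positivity)
  refine (abs_sum_le_sum_abs _ _).trans ?_
  have : ∀ K ∈ F.powerset, |(-1) ^ K.card * tw (fun _ => b) K * u (A + bd DB K)| ≤ η := by
    intro K hK
    rw [abs_mul, abs_mul, abs_pow, abs_neg, abs_one, one_pow, one_mul,
      abs_of_nonneg (tw_nonneg fun _ _ => hb0.le)]
    calc tw (fun _ => b) K * |u (A + bd DB K)| ≤ 1 * η :=
          mul_le_mul (tw_le_one hb0.le hb1.le K) (h K (mem_powerset.1 hK)) (abs_nonneg _)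
            zero_le_one
      _ = η := one_mul η
  refine (sum_le_sum this).trans ?_
  rw [sum_const, card_powerset, nsmul_eq_mul]
  push_cast
  exact le_rfl

theorem S3_abs_le (F : Finset (Ed d)) (f : Finset (Ed d) → Finset (Ed d) → Finset (Ed d) → ℝ)
    {B : ℝ} (hB : 0 ≤ B) (h : ∀ ω p q, ω ⊆ F → p ⊆ ω → q ⊆ ω → |f ω p q| ≤ B) :
    |S3 F f| ≤ 8 ^ F.card * B := by
  rw [S3_ix]
  refine (abs_sum_le_sum_abs _ _).trans ?_
  have : ∀ x ∈ ix F, |f x.1 x.2.1 x.2.2| ≤ B := by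
    intro x hx
    rw [mem_ix] at hx
    exact h _ _ _ hx.1 hx.2.1 hx.2.2
  refine (sum_le_sum this).trans ?_
  rw [sum_const, nsmul_eq_mul]
  refine mul_le_mul_of_nonneg_right ?_ hB
  have hc : (ix F).card ≤ 8 ^ F.card := by
    unfold ix
    refine (card_filter_le _ _).trans ?_
    rw [card_product, card_product, card_powerset]
    have : (8 : ℕ) = 2 * (2 * 2) := by norm_num
    rw [this, mul_pow, mul_pow]
  exact_mod_cast hc

theorem W_le_one {b : ℝ} (hb0 : 0 < b) (hb1 : b < 1) (I ω p q : Finset (Ed d)) :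
    W (fun _ => b) I ω p q ≤ 1 := by
  unfold W
  refine prod_le_one (fun i _ => ?_) (fun i _ => ?_)
  · split_ifs
    · positivity
    · exact hb0.le
    · nlinarith
  · split_ifs
    · nlinarith
    · exact hb1.le
    · nlinarith [sq_nonneg b]

theorem mx2 : S_MX2 := by
  classical
  intro d b hb0 hb1 e₀ R δ hδ
  have hb2 : 0 < 1 - b ^ 2 := by nlinarith
  have hb3 : 1 - b ^ 2 ≤ 1 := by nlinarith [sq_nonneg b]
  set q : ℝ := (1 - b ^ 2)⁻¹ * 2 with hq
  have hq1 : 1 ≤ q := by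
    have : 1 ≤ (1 - b ^ 2)⁻¹ := (one_le_inv₀ hb2).2 hb3
    rw [hq]; linarith
  set k : ℕ := 2 * (edg d R).card with hk
  set B : ℝ := 8 ^ k * (q ^ k * q ^ k) with hB
  have hB0 : 0 < B := by positivity
  set η : ℝ := δ / B with hη
  have hη0 : 0 < η := by positivity
  set T : Finset (X d) := ((edg d R).powerset ×ˢ (edg d R).powerset).image
    (fun x => bd DB x.1 + bd DB x.2) with hT
  have h1 : ∀ x : X d × X d, ∃ L : ℕ, ∀ u0 u1 u2 : V d, (∃ j, (L:ℤ) ≤ |u0 j - u1 j|) →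
      (∃ j, (L:ℤ) ≤ |u0 j - u2 j|) → (∃ j, (L:ℤ) ≤ |u1 j - u2 j|) →
      cp b (shX u0 (DB e₀) + (shX u1 x.1 + shX u2 x.2)) ≤
        cp b (DB e₀) * (cp b x.1 * cp b x.2) + η := fun x =>
    mix3 mix hb0.le hb1.le (DB e₀) x.1 x.2 hη0
  choose L hL using h1
  refine ⟨(T ×ˢ T).sup L, fun u₀ u₁ u₂ h01 h02 h12 S hS => ?_⟩
  set F := wedg u₁ R ∪ wedg u₂ R with hF
  have hcard : F.card ≤ k := by
    rw [hF, hk, two_mul]
    refine (card_union_le _ _).trans ?_
    unfold wedg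
    rw [card_map, card_map]
  -- decomposition of chains
  have hdec : ∀ a : Finset (Ed d), a ⊆ F → ∃ a₁ ⊆ edg d R, ∃ a₂ ⊆ edg d R,
      bd DB a = shX u₁ (bd DB a₁) + shX u₂ (bd DB a₂) := by
    intro a ha
    have e1 : a ∩ wedg u₁ R ⊆ (edg d R).map (shEq u₁).toEmbedding := inter_subset_right
    have e2 : a \ wedg u₁ R ⊆ (edg d R).map (shEq u₂).toEmbedding := by
      intro e he
      rw [Finset.mem_sdiff] at he
      rcases mem_union.1 (ha he.1) with h | h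
      · exact absurd h he.2
      · exact h
    obtain ⟨a₁, ha₁, h₁⟩ := subset_map_iff.1 e1
    obtain ⟨a₂, ha₂, h₂⟩ := subset_map_iff.1 e2
    refine ⟨a₁, ha₁, a₂, ha₂, ?_⟩
    rw [← bd_map_sh, ← bd_map_sh, ← h₁, ← h₂,
      ← bd_union DB (disjoint_sdiff_inter a (wedg u₁ R)).symm, union_comm, sdiff_union_inter]
  have hDe : DB (shE u₀ e₀) = shX u₀ (DB e₀) := (shX_DB u₀ e₀).symm
  -- the decoupling error
  set u' : X d → ℝ := fun C => cp b (DB (shE u₀ e₀) + C) - cp b (DB (shE u₀ e₀)) * cp b C with hu'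
  have hdecoup : ∀ a K : Finset (Ed d), a ⊆ F → K ⊆ F → |u' (bd DB a + bd DB K)| ≤ η := by
    intro a K ha hK
    obtain ⟨a₁, ha₁, a₂, ha₂, h₁⟩ := hdec a ha
    obtain ⟨K₁, hK₁, K₂, hK₂, h₂⟩ := hdec K hK
    have hC : bd DB a + bd DB K = shX u₁ (bd DB a₁ + bd DB K₁) + shX u₂ (bd DB a₂ + bd DB K₂) := by
      rw [h₁, h₂, map_add, map_add]
      abel
    have hx1 : bd DB a₁ + bd DB K₁ ∈ T :=
      mem_image.2 ⟨(a₁, K₁), mem_product.2 ⟨mem_powerset.2 ha₁, mem_powerset.2 hK₁⟩, rfl⟩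
    have hx2 : bd DB a₂ + bd DB K₂ ∈ T :=
      mem_image.2 ⟨(a₂, K₂), mem_product.2 ⟨mem_powerset.2 ha₂, mem_powerset.2 hK₂⟩, rfl⟩
    set A₁ := bd DB a₁ + bd DB K₁
    set A₂ := bd DB a₂ + bd DB K₂
    have hle : L (A₁, A₂) ≤ (T ×ˢ T).sup L := le_sup (f := L) (mem_product.2 ⟨hx1, hx2⟩)
    have hfar : ∀ {x y : V d}, Far ((T ×ˢ T).sup L) x y →
        ∃ j, ((L (A₁, A₂) : ℕ) : ℤ) ≤ |x j - y j| := by
      rintro x y ⟨j, hj⟩
      refine ⟨j, le_trans ?_ hj⟩
      exact_mod_cast hle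
    have h3 := hL (A₁, A₂) u₀ u₁ u₂ (hfar h01) (hfar h02) (hfar h12)
    have h4 := cp_gks hb0.le hb1.le (shX u₁ A₁) (shX u₂ A₂)
    rw [cp_shift hb0.le hb1.le, cp_shift hb0.le hb1.le] at h4
    have h5 := mul_le_mul_of_nonneg_left h4 (cp_nonneg hb0.le hb1.le (DB e₀))
    have h6 := cp_gks hb0.le hb1.le (DB (shE u₀ e₀)) (shX u₁ A₁ + shX u₂ A₂)
    have h7 : cp b (DB (shE u₀ e₀)) = cp b (DB e₀) := by
      rw [hDe, cp_shift hb0.le hb1.le]
    simp only [hu']
    rw [hC, h7]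
    rw [h7] at h6
    rw [hDe] at h6 ⊢
    rw [abs_le]
    constructor
    · linarith
    · linarith
  have hdiff : Loc DB (fun _ => b) F (cp b) (c0 b) (DB (shE u₀ e₀)) (ind S) -
      cp b (DB (shE u₀ e₀)) * Loc DB (fun _ => b) F (cp b) (c0 b) 0 (ind S) =
      S3 F (fun α a a' => W (fun _ => b) F α a a' * ind S α a a' *
        (iv DB (fun _ => b) F u' (bd DB a) * iv DB (fun _ => b) F (c0 b) (bd DB a'))) := by
    unfold Loc
    rw [← S3_mul_left, ← S3_sub]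
    refine S3_congr fun α a a' _ _ _ => ?_
    have : iv DB (fun _ => b) F u' (bd DB a) =
        iv DB (fun _ => b) F (cp b) (DB (shE u₀ e₀) + bd DB a) -
          cp b (DB (shE u₀ e₀)) * iv DB (fun _ => b) F (cp b) (0 + bd DB a) := by
      have e0 : ∑ K ∈ F.powerset, (-1) ^ K.card * tw (fun _ => b) K * u' (bd DB a + bd DB K) =
          ∑ K ∈ F.powerset, (-1) ^ K.card * tw (fun _ => b) K *
            cp b (DB (shE u₀ e₀) + bd DB a + bd DB K) - cp b (DB (shE u₀ e₀)) *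
              ∑ K ∈ F.powerset, (-1) ^ K.card * tw (fun _ => b) K *
                cp b (0 + bd DB a + bd DB K) := by
        rw [mul_sum, ← sum_sub_distrib]
        refine sum_congr rfl fun K _ => ?_
        simp only [hu', zero_add, add_assoc]
        ring
      unfold iv
      rw [e0]
      ring
    rw [this]
    ring
  have hbound : |S3 F (fun α a a' => W (fun _ => b) F α a a' * ind S α a a' *
        (iv DB (fun _ => b) F u' (bd DB a) * iv DB (fun _ => b) F (c0 b) (bd DB a')))| ≤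
      8 ^ F.card * (q ^ F.card * η * (q ^ F.card * 1)) := by
    have hq0 : 0 ≤ q := by linarith
    refine S3_abs_le F _ (by positivity) fun ω p r hω hp hr => ?_
    have g1 := iv_abs_le hb0 hb1 F u' (bd DB p) hη0.le (fun K hK => hdecoup p K (hp.trans hω) hK)
    have g2 := iv_abs_le hb0 hb1 F (c0 b) (bd DB r) zero_le_one (fun K hK => by
      rw [abs_of_nonneg (c0_nonneg hb0.le hb1.le _)]
      exact c0_le_one hb0.le hb1.le _)
    rw [abs_mul, abs_mul, abs_mul, abs_of_nonneg (W_pos (fun _ => hb0) (fun _ => hb1) _ _ _ _).le,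
      abs_of_nonneg (ind_nonneg _ _ _ _)]
    have g3 : W (fun _ => b) F ω p r * ind S ω p r ≤ 1 :=
      mul_le_one₀ (W_le_one hb0 hb1 _ _ _ _) (ind_nonneg _ _ _ _) (ind_le_one _ _ _ _)
    calc W (fun _ => b) F ω p r * ind S ω p r *
          (|iv DB (fun _ => b) F u' (bd DB p)| * |iv DB (fun _ => b) F (c0 b) (bd DB r)|) ≤
          1 * (q ^ F.card * η * (q ^ F.card * 1)) := by
            refine mul_le_mul g3 (mul_le_mul g1 g2 (abs_nonneg _) (by positivity)) (by positivity)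
              zero_le_one
      _ = _ := one_mul _
  have hfinal : 8 ^ F.card * (q ^ F.card * η * (q ^ F.card * 1)) ≤ δ := by
    have e1 : (8:ℝ) ^ F.card ≤ 8 ^ k := pow_le_pow_right₀ (by norm_num) hcard
    have e2 : q ^ F.card ≤ q ^ k := pow_le_pow_right₀ hq1 hcard
    have e3 : (0:ℝ) ≤ q ^ F.card := by positivity
    calc 8 ^ F.card * (q ^ F.card * η * (q ^ F.card * 1)) =
          8 ^ F.card * (q ^ F.card * q ^ F.card) * η := by ring
      _ ≤ 8 ^ k * (q ^ k * q ^ k) * η := by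
          refine mul_le_mul_of_nonneg_right ?_ hη0.le
          exact mul_le_mul e1 (mul_le_mul e2 e2 e3 (by positivity)) (by positivity) (by positivity)
      _ = δ := by
          rw [← hB, hη]
          field_simp
  rw [← hdiff] at hbound
  have := neg_le_of_abs_le (hbound.trans hfinal)
  linarith

end Pool.Agent.L7h96.RC
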